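import Pool.Agent.Lib.MP_fa837f_gt.TS.Iface

/-!
Project TS (MP_fa837f_gt), module MAIN: the final theorem from CUBE and PLC.
-/

set_option autoImplicit false

namespace Pool.Agent.Lib.MP_fa837f_gt.TS.H93

/-- MAIN -/
theorem main (hC : CubeStatement) (hP : PlcStatement) : MainStatement :=
  fun n H hB => ⟨hC n H hB, hP n H (hC n H hB)⟩

end Pool.Agent.Lib.MP_fa837f_gt.TS.H93
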